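import Mathlib

set_option autoImplicit false

/-!
DP-coloring (correspondence coloring): covers of a graph, the DP-chromatic number, the partial DP
`t`-numbers and partially DP-nice graphs.
-/

namespace Pool.Agent.Lib.MP_a5c736_co

/-- A cover `(L, H)` of the graph `G`: a finite graph `H` on the vertex set `W` and finite sets
`L u ⊆ W` (`u` a vertex of `G`) such that (1) the sets `L u` partition `W` (every `w` lies in
exactly one of them), (2) every `H[L u]` is complete, (3) for every edge `u v` of `G` the edges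
of `H` between `L u` and `L v` form a matching, (4) for distinct non-adjacent `u`, `v` there are
no edges of `H` between `L u` and `L v`. -/
structure Cover {V : Type} (G : SimpleGraph V) where
  /-- the vertex set of the cover graph -/
  W : Type
  /-- it is finite -/
  finW : Finite W
  /-- the cover graph -/
  H : SimpleGraph W
  /-- the list of a vertex -/
  L : V → Finset W
  partition : ∀ w : W, ∃! u : V, w ∈ L u
  complete : ∀ u : V, ∀ x ∈ L u, ∀ y ∈ L u, x ≠ y → H.Adj x y
  matching : ∀ u v : V, G.Adj u v →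
    ∀ x ∈ L u, ∀ y ∈ L v, ∀ y' ∈ L v, H.Adj x y → H.Adj x y' → y = y'
  nonadj : ∀ u v : V, u ≠ v → ¬ G.Adj u v → ∀ x ∈ L u, ∀ y ∈ L v, ¬ H.Adj x y

variable {V : Type}

/-- The cover is `m`-fold: every list has exactly `m` elements. -/
def Cover.IsFold {G : SimpleGraph V} (C : Cover G) (m : ℕ) : Prop :=
  ∀ u : V, (C.L u).card = m

/-- `G` has an `ℋ`-coloring: `H` has an independent set of size `|V(G)|`. -/
def Cover.Colorable [Fintype V] {G : SimpleGraph V} (C : Cover G) : Prop :=
  ∃ I : Finset C.W, C.H.IsIndepSet (I : Set C.W) ∧ I.card = Fintype.card V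

/-- The DP-chromatic number: the least `m` such that `G` has an `ℋ`-coloring for every `m`-fold
cover `ℋ` of `G`. -/
noncomputable def chiDP [Fintype V] (G : SimpleGraph V) : ℕ :=
  sInf {m : ℕ | ∀ C : Cover G, C.IsFold m → C.Colorable}

/-- The partial DP `t`-number: the least independence number `α(H)` of a `t`-fold cover
`(L, H)` of `G`. -/
noncomputable def alphaDP (t : ℕ) (G : SimpleGraph V) : ℕ :=
  sInf {a : ℕ | ∃ C : Cover G, C.IsFold t ∧ C.H.indepNum = a}

/-- `G` is partially DP-nice: `α_t^{DP}(G) ≥ t |V(G)| / χ_{DP}(G)` for all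
`1 ≤ t ≤ χ_{DP}(G)`. -/
def PartiallyDPNice [Fintype V] (G : SimpleGraph V) : Prop :=
  ∀ t : ℕ, 1 ≤ t → t ≤ chiDP G →
    ((t : ℝ) * (Fintype.card V : ℝ)) / (chiDP G : ℝ) ≤ (alphaDP t G : ℝ)

end Pool.Agent.Lib.MP_a5c736_co
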