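import Mathlib
import Pool.Agent.Lib.MP_a5c736_co.Defs

set_option autoImplicit false

namespace Pool.Agent.Lib.MP_a5c736_co

variable {V : Type}

/-! ### Greedy colouring -/

/-- Greedy colouring along a degenerate order. -/
lemma greedy_aux {G : SimpleGraph V} (C : Cover G) (m : ℕ) (hm : C.IsFold m)
    (hdeg : ∀ S : Finset V, S.Nonempty → ∃ v ∈ S, ∀ N : Finset V, N ⊆ S →
      (∀ u ∈ N, G.Adj v u) → N.card < m) (n : ℕ) :
    ∀ S : Finset V, S.card = n →
      ∃ f : V → C.W, (∀ u ∈ S, f u ∈ C.L u) ∧
        ∀ u ∈ S, ∀ v ∈ S, u ≠ v → ¬ C.H.Adj (f u) (f v) := by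
  classical
  induction n with
  | zero =>
    intro S hS
    have hS' : S = ∅ := Finset.card_eq_zero.mp hS
    subst hS'
    by_cases hV : Nonempty (V → C.W)
    · obtain ⟨f⟩ := hV
      exact ⟨f, by simp, by simp⟩
    · -- some list is empty or `V → W` is nonempty
      exfalso
      apply hV
      refine ⟨fun v => ?_⟩
      have hpos : 0 < m := by
        obtain ⟨w, _, hw⟩ := hdeg {v} ⟨v, by simp⟩
        have := hw ∅ (by simp) (by simp)
        simpa using this
      have : (C.L v).Nonempty := by
        rw [← Finset.card_pos, hm v]; exact hpos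
      exact this.choose
  | succ n ih =>
    intro S hS
    have hne : S.Nonempty := by
      rw [← Finset.card_pos]; omega
    obtain ⟨v, hv, hN⟩ := hdeg S hne
    obtain ⟨f, hf1, hf2⟩ := ih (S.erase v) (by rw [Finset.card_erase_of_mem hv]; omega)
    -- blocked elements of `L v`
    set N : Finset V := S.filter (fun u => G.Adj v u) with hNdef
    have hNc : N.card < m := hN N (Finset.filter_subset _ _) (by
      intro u hu; exact (Finset.mem_filter.mp hu).2)
    set B : Finset C.W := (C.L v).filter (fun x => ∃ u ∈ N, C.H.Adj (f u) x) with hB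
    have hBc : B.card ≤ N.card := by
      have hsub : ∀ x ∈ B, ∃ u ∈ N, C.H.Adj (f u) x := by
        intro x hx
        exact (Finset.mem_filter.mp hx).2
      choose g hg1 hg2 using hsub
      have : B.card ≤ N.card := by
        apply Finset.card_le_card_of_injOn (fun x => if hx : x ∈ B then g x hx else v)
        · intro x hx
          have hx' : x ∈ B := hx
          simp only [hx', dif_pos]
          exact hg1 x hx'
        · intro x hx y hy hxy
          have hx' : x ∈ B := hx
          have hy' : y ∈ B := hy
          simp only [hx', hy', dif_pos] at hxy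
          have h1 := hg2 x hx'
          have h2 := hg2 y hy'
          rw [← hxy] at h2
          have hgN := hg1 x hx'
          have hgS : g x hx' ∈ S := (Finset.mem_filter.mp hgN).1
          have hgA : G.Adj v (g x hx') := (Finset.mem_filter.mp hgN).2
          have hne' : g x hx' ≠ v := fun h => by
            rw [h] at hgA; exact G.loopless.irrefl v hgA
          exact C.matching (g x hx') v hgA.symm (f (g x hx'))
            (hf1 _ (Finset.mem_erase.mpr ⟨hne', hgS⟩)) x (Finset.mem_filter.mp hx').1 y
            (Finset.mem_filter.mp hy').1 h1 h2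
      exact this
    have hlt : B.card < (C.L v).card := by
      rw [hm v]; omega
    obtain ⟨x, hx, hxB⟩ := Finset.exists_mem_notMem_of_card_lt_card hlt
    have hxB' : ∀ u ∈ S, G.Adj v u → ¬ C.H.Adj (f u) x := by
      intro u hu huv hadj
      apply hxB
      exact Finset.mem_filter.mpr ⟨hx, u, Finset.mem_filter.mpr ⟨hu, huv⟩, hadj⟩
    have hfree : ∀ u ∈ S, u ≠ v → ¬ C.H.Adj (f u) x := by
      intro u hu huv
      by_cases hadj : G.Adj v u
      · exact hxB' u hu hadj
      · exact C.nonadj u v huv (fun h => hadj h.symm) (f u)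
          (hf1 u (Finset.mem_erase.mpr ⟨huv, hu⟩)) x hx
    refine ⟨Function.update f v x, ?_, ?_⟩
    · intro u hu
      by_cases huv : u = v
      · subst huv; simpa using hx
      · rw [Function.update_of_ne huv]
        exact hf1 u (Finset.mem_erase.mpr ⟨huv, hu⟩)
    · intro u hu w hw huw
      by_cases huv : u = v
      · subst huv
        have hwu : w ≠ u := fun h => huw h.symm
        rw [Function.update_self, Function.update_of_ne hwu]
        intro h
        exact hfree w hw hwu h.symm
      · by_cases hwv : w = v
        · subst hwv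
          rw [Function.update_self, Function.update_of_ne huv]
          exact hfree u hu huv
        · rw [Function.update_of_ne huv, Function.update_of_ne hwv]
          exact hf2 u (Finset.mem_erase.mpr ⟨huv, hu⟩) w (Finset.mem_erase.mpr ⟨hwv, hw⟩) huw

lemma colorable_of_degenerate [Fintype V] {G : SimpleGraph V} (C : Cover G) (m : ℕ)
    (hm : C.IsFold m)
    (hdeg : ∀ S : Finset V, S.Nonempty → ∃ v ∈ S, ∀ N : Finset V, N ⊆ S →
      (∀ u ∈ N, G.Adj v u) → N.card < m) : C.Colorable := by
  classical
  obtain ⟨f, hf1, hf2⟩ := greedy_aux C m hm hdeg _ Finset.univ rfl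
  have hinj : Function.Injective f := by
    intro u v huv
    have hu := hf1 u (Finset.mem_univ _)
    have hv := hf1 v (Finset.mem_univ _)
    rw [huv] at hu
    exact (C.partition (f v)).unique hu hv
  refine ⟨Finset.univ.image f, ?_, ?_⟩
  · intro x hx y hy hxy
    simp only [Finset.coe_image, Finset.coe_univ, Set.image_univ, Set.mem_range] at hx hy
    obtain ⟨u, rfl⟩ := hx
    obtain ⟨v, rfl⟩ := hy
    exact hf2 u (Finset.mem_univ _) v (Finset.mem_univ _) (fun h => hxy (by rw [h]))
  · rw [Finset.card_image_of_injective _ hinj, Finset.card_univ]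

/-! ### Covers given by permutations -/

/-- The cover of `G` with lists `{u} × K` in which, for an edge `u v`, the element `(u, c)` is
joined to `(v, σ u v c)`. -/
def permCover (G : SimpleGraph V) [Finite V] (K : Type) [Fintype K]
    (σ : V → V → Equiv.Perm K) (hσ : ∀ u v, σ v u = (σ u v).symm) : Cover G where
  W := V × K
  finW := inferInstance
  H :=
    { Adj := fun x y => (x.1 = y.1 ∧ x.2 ≠ y.2) ∨ (G.Adj x.1 y.1 ∧ σ x.1 y.1 x.2 = y.2)
      symm := ⟨by
        rintro ⟨u, c⟩ ⟨v, d⟩ h
        rcases h with ⟨h1, h2⟩ | ⟨h1, h2⟩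
        · exact Or.inl ⟨h1.symm, fun h => h2 h.symm⟩
        · refine Or.inr ⟨h1.symm, ?_⟩
          simp only at h2 ⊢
          rw [hσ u v, ← h2, Equiv.symm_apply_apply]⟩
      loopless := ⟨by
        rintro ⟨u, c⟩ h
        rcases h with ⟨_, h2⟩ | ⟨h1, _⟩
        · exact h2 rfl
        · exact G.loopless.irrefl u h1⟩ }
  L := fun u => Finset.univ.map ⟨fun c : K => (u, c), fun _ _ h => (Prod.mk.inj h).2⟩
  partition := by
    rintro ⟨u, c⟩
    refine ⟨u, by simp, ?_⟩
    intro v hv
    simp only [Finset.mem_map, Finset.mem_univ, Function.Embedding.coeFn_mk, Prod.mk.injEq,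
      true_and] at hv
    obtain ⟨_, h, _⟩ := hv
    exact h
  complete := by
    rintro u ⟨x, c⟩ hx ⟨y, d⟩ hy hxy
    simp only [Finset.mem_map, Finset.mem_univ, Function.Embedding.coeFn_mk, Prod.mk.injEq,
      true_and] at hx hy
    obtain ⟨_, rfl, _⟩ := hx
    obtain ⟨_, rfl, _⟩ := hy
    exact Or.inl ⟨rfl, fun h => hxy (by simp_all)⟩
  matching := by
    rintro u v huv ⟨x, c⟩ hx ⟨y, d⟩ hy ⟨y', d'⟩ hy' h h'
    simp only [Finset.mem_map, Finset.mem_univ, Function.Embedding.coeFn_mk, Prod.mk.injEq,
      true_and] at hx hy hy'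
    obtain ⟨_, rfl, _⟩ := hx
    obtain ⟨_, rfl, _⟩ := hy
    obtain ⟨_, rfl, _⟩ := hy'
    have hne : u ≠ v := fun h => by rw [h] at huv; exact G.loopless.irrefl v huv
    rcases h with ⟨h1, _⟩ | ⟨_, h2⟩
    · exact absurd h1 hne
    rcases h' with ⟨h1, _⟩ | ⟨_, h2'⟩
    · exact absurd h1 hne
    simp only at h2 h2'
    rw [← h2, ← h2']
  nonadj := by
    rintro u v huv hadj ⟨x, c⟩ hx ⟨y, d⟩ hy h
    simp only [Finset.mem_map, Finset.mem_univ, Function.Embedding.coeFn_mk, Prod.mk.injEq,
      true_and] at hx hy
    obtain ⟨_, rfl, _⟩ := hx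
    obtain ⟨_, rfl, _⟩ := hy
    rcases h with ⟨h1, _⟩ | ⟨h1, _⟩
    · exact huv h1
    · exact hadj h1

lemma permCover_isFold (G : SimpleGraph V) [Finite V] (K : Type) [Fintype K]
    (σ : V → V → Equiv.Perm K) (hσ : ∀ u v, σ v u = (σ u v).symm) :
    (permCover G K σ hσ).IsFold (Fintype.card K) := by
  intro u
  simp [permCover]

/-! ### The graph -/

/-- Vertex set: a clique `Q = {inl i}`, an independent set `A = {inr (inl i)}` and an extra
vertex `z = inr (inr ())`. -/
abbrev Vt (t : ℕ) : Type := Fin t ⊕ (Fin t ⊕ Unit)

/-- Adjacency: `Q` is a clique, every vertex of `Q` is joined to every vertex of `A`, and `z` is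
joined to every vertex of `A`. -/
def adjT {t : ℕ} : Vt t → Vt t → Prop
  | Sum.inl i, Sum.inl j => i ≠ j
  | Sum.inl _, Sum.inr (Sum.inl _) => True
  | Sum.inr (Sum.inl _), Sum.inl _ => True
  | Sum.inr (Sum.inl _), Sum.inr (Sum.inr _) => True
  | Sum.inr (Sum.inr _), Sum.inr (Sum.inl _) => True
  | _, _ => False

/-- The graph `K_t ∨ (empty graph on t vertices)` plus a vertex joined to the `t` independent
vertices. -/
def GT (t : ℕ) : SimpleGraph (Vt t) where
  Adj := adjT
  symm := ⟨by
    rintro (i | i | i) (j | j | j) h <;> simp_all [adjT]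
    exact fun h' => h h'.symm⟩
  loopless := ⟨by
    rintro (i | i | i) h <;> simp_all [adjT]⟩

lemma card_Vt (t : ℕ) : Fintype.card (Vt t) = 2 * t + 1 := by
  simp [Vt]; ring

/-- degeneracy of `GT t` -/
lemma GT_degenerate (t : ℕ) (S : Finset (Vt t)) (hS : S.Nonempty) :
    ∃ v ∈ S, ∀ N : Finset (Vt t), N ⊆ S → (∀ u ∈ N, (GT t).Adj v u) → N.card < t + 1 := by
  classical
  by_cases hz : (Sum.inr (Sum.inr ()) : Vt t) ∈ S
  · refine ⟨_, hz, fun N _ hN => ?_⟩
    have hsub : N ⊆ Finset.univ.image (fun i : Fin t => (Sum.inr (Sum.inl i) : Vt t)) := by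
      intro u hu
      have := hN u hu
      rcases u with i | i | i
      · simp [GT, adjT] at this
      · simp
      · simp [GT, adjT] at this
    calc N.card ≤ _ := Finset.card_le_card hsub
      _ ≤ Fintype.card (Fin t) := by
        rw [← Finset.card_univ]; exact Finset.card_image_le
      _ < t + 1 := by simp
  · by_cases hA : ∃ i : Fin t, (Sum.inr (Sum.inl i) : Vt t) ∈ S
    · obtain ⟨i, hi⟩ := hA
      refine ⟨_, hi, fun N hNS hN => ?_⟩
      have hsub : N ⊆ Finset.univ.image (fun i : Fin t => (Sum.inl i : Vt t)) := by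
        intro u hu
        have := hN u hu
        rcases u with i | i | i
        · simp
        · simp [GT, adjT] at this
        · exact absurd (hNS hu) hz
      calc N.card ≤ _ := Finset.card_le_card hsub
        _ ≤ Fintype.card (Fin t) := by
          rw [← Finset.card_univ]; exact Finset.card_image_le
        _ < t + 1 := by simp
    · obtain ⟨v, hv⟩ := hS
      refine ⟨v, hv, fun N hNS _ => ?_⟩
      have hsub : N ⊆ Finset.univ.image (fun i : Fin t => (Sum.inl i : Vt t)) := by
        intro u hu
        have hu' := hNS hu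
        rcases u with i | i | i
        · simp
        · exact absurd ⟨i, hu'⟩ hA
        · exact absurd hu' hz
      calc N.card ≤ _ := Finset.card_le_card hsub
        _ ≤ Fintype.card (Fin t) := by
          rw [← Finset.card_univ]; exact Finset.card_image_le
        _ < t + 1 := by simp

lemma GT_colorable (t : ℕ) (C : Cover (GT t)) (hC : C.IsFold (t + 1)) :
    C.Colorable :=
  colorable_of_degenerate C (t + 1) hC (fun S hS => GT_degenerate t S hS)

/-! ### No colouring with fewer colours -/

lemma GT_not_colorable (t : ℕ) (ht : 1 ≤ t) (m : ℕ) (hm : m < t + 1) :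
    ∃ C : Cover (GT t), C.IsFold m ∧ ¬ C.Colorable := by
  classical
  refine ⟨permCover (GT t) (Fin m) (fun _ _ => 1) (fun _ _ => rfl), ?_, ?_⟩
  · have := permCover_isFold (GT t) (Fin m) (fun _ _ => 1) (fun _ _ => rfl)
    simpa using this
  · rintro ⟨I, hI, hcard⟩
    change Finset (Vt t × Fin m) at I
    change (permCover (GT t) (Fin m) (fun _ _ => 1) (fun _ _ => rfl)).H.IsIndepSet
      (I : Set (Vt t × Fin m)) at hI
    -- the projection to `V` is injective on `I`, hence bijective
    have hinj : Set.InjOn (fun x : Vt t × Fin m => x.1) (I : Set (Vt t × Fin m)) := by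
      rintro ⟨u, c⟩ hx ⟨v, d⟩ hy huv
      simp only at huv
      subst huv
      by_contra hne
      exact hI hx hy hne (Or.inl ⟨rfl, fun h => hne (by simp only at h; rw [h])⟩)
    have himg : I.image (fun x : Vt t × Fin m => x.1) = Finset.univ := by
      apply Finset.eq_univ_of_card
      rw [Finset.card_image_of_injOn hinj]
      exact hcard
    have hex : ∀ u : Vt t, ∃ c : Fin m, (u, c) ∈ I := by
      intro u
      have : u ∈ I.image (fun x : Vt t × Fin m => x.1) := by rw [himg]; simp
      obtain ⟨⟨v, c⟩, hvc, rfl⟩ := Finset.mem_image.mp this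
      exact ⟨c, hvc⟩
    choose f hf using hex
    let i0 : Fin t := ⟨0, by omega⟩
    let e : Option (Fin t) → Vt t := fun o => match o with
      | none => Sum.inr (Sum.inl i0)
      | some i => Sum.inl i
    have he : ∀ a b : Option (Fin t), a ≠ b → (GT t).Adj (e a) (e b) := by
      rintro (_ | a) (_ | b) hab
      · exact absurd rfl hab
      · simp [e, GT, adjT]
      · simp [e, GT, adjT]
      · simp only [e, GT, adjT]
        intro h; exact hab (by rw [h])
    have hfinj : Function.Injective (fun a => f (e a)) := by
      intro a b hab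
      by_contra hne
      have hadj := he a b hne
      have hne' : e a ≠ e b := fun h => by
        rw [h] at hadj; exact (GT t).loopless.irrefl _ hadj
      have h1 := hI (hf (e a)) (hf (e b)) (fun h => hne' (Prod.mk.inj h).1)
      apply h1
      exact Or.inr ⟨hadj, by simpa using hab⟩
    have := Fintype.card_le_of_injective _ hfinj
    simp at this
    omega

lemma chiDP_GT (t : ℕ) (ht : 1 ≤ t) : chiDP (GT t) = t + 1 := by
  apply le_antisymm
  · exact Nat.sInf_le (GT_colorable t)
  · apply le_csInf
    · exact ⟨t + 1, GT_colorable t⟩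
    · intro m hm
      by_contra hlt
      push Not at hlt
      obtain ⟨C, hC, hn⟩ := GT_not_colorable t ht m hlt
      exact hn (hm C hC)

/-! ### The bad `t`-fold cover -/

/-- shifts: between `z` and `a_i` the colour `c` of `a_i` is matched with the colour `c + i`
of `z`; all other matchings are the identity. -/
def shift {t : ℕ} [NeZero t] : Vt t → Vt t → Equiv.Perm (Fin t)
  | Sum.inr (Sum.inl i), Sum.inr (Sum.inr _) => Equiv.addRight i
  | Sum.inr (Sum.inr _), Sum.inr (Sum.inl i) => (Equiv.addRight i).symm
  | _, _ => 1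

lemma shift_symm {t : ℕ} [NeZero t] (u v : Vt t) : shift v u = (shift u v).symm := by
  rcases u with i | i | i <;> rcases v with j | j | j <;> rfl

lemma GT_bad (t : ℕ) (ht : 2 ≤ t) :
    ∃ C : Cover (GT t), C.IsFold t ∧ C.H.indepNum ≤ 2 * t - 1 := by
  classical
  have : NeZero t := ⟨by omega⟩
  refine ⟨permCover (GT t) (Fin t) shift shift_symm, ?_, ?_⟩
  · have := permCover_isFold (GT t) (Fin t) shift shift_symm
    simpa using this
  · suffices h : ∀ I : Finset (Vt t × Fin t),
        (permCover (GT t) (Fin t) shift shift_symm).H.IsIndepSet (I : Set (Vt t × Fin t)) →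
          ¬ 2 * t ≤ I.card by
      obtain ⟨I, hI⟩ :=
        (permCover (GT t) (Fin t) shift shift_symm).H.exists_isNIndepSet_indepNum
      have h1 := h I hI.isIndepSet
      have h2 := hI.card_eq
      have h3 : ¬ 2 * t ≤ (permCover (GT t) (Fin t) shift shift_symm).H.indepNum := by
        rw [← h2]; exact h1
      omega
    intro I hI' hlt'
    have hinj : Set.InjOn (fun x : Vt t × Fin t => x.1) (I : Set (Vt t × Fin t)) := by
      rintro ⟨u, c⟩ hx ⟨v, d⟩ hy huv
      simp only at huv
      subst huv
      by_contra hne
      exact hI' hx hy hne (Or.inl ⟨rfl, fun h => hne (by simp only at h; rw [h])⟩)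
    set P : Finset (Vt t) := I.image (fun x : Vt t × Fin t => x.1) with hP
    have hPc : 2 * t ≤ P.card := by
      rw [hP, Finset.card_image_of_injOn hinj]; exact hlt'
    -- at most one vertex is missing
    have hmiss : ∀ u v : Vt t, u ≠ v → u ∉ P → v ∈ P := by
      intro u v huv hu
      by_contra hv
      have h1 : P ⊆ (Finset.univ.erase u).erase v := by
        intro x hx
        simp only [Finset.mem_erase, Finset.mem_univ, and_true]
        exact ⟨fun h => hv (h ▸ hx), fun h => hu (h ▸ hx)⟩
      have h2 := Finset.card_le_card h1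
      rw [Finset.card_erase_of_mem (by simp [huv.symm]), Finset.card_erase_of_mem (by simp),
        Finset.card_univ, card_Vt] at h2
      omega
    have hex : ∀ u : Vt t, u ∈ P → ∃ c : Fin t, (u, c) ∈ I := by
      intro u hu
      obtain ⟨⟨v, c⟩, hvc, rfl⟩ := Finset.mem_image.mp hu
      exact ⟨c, hvc⟩
    have hconf : ∀ (u v : Vt t) (c d : Fin t), (u, c) ∈ I → (v, d) ∈ I → (GT t).Adj u v →
        shift u v c ≠ d := by
      intro u v c d hu hv hadj hcd
      have hne' : u ≠ v := fun h => by
        rw [h] at hadj; exact (GT t).loopless.irrefl _ hadj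
      exact hI' hu hv (fun h => hne' (Prod.mk.inj h).1) (Or.inr ⟨hadj, hcd⟩)
    by_cases hQ : ∀ i : Fin t, (Sum.inl i : Vt t) ∈ P
    · -- all of `Q` is coloured, together with one `a_j`
      have hA : ∃ j : Fin t, (Sum.inr (Sum.inl j) : Vt t) ∈ P := by
        by_contra hno
        push Not at hno
        have h01 : (Sum.inr (Sum.inl ⟨0, by omega⟩) : Vt t) ≠ Sum.inr (Sum.inl ⟨1, by omega⟩) := by
          simp
        exact hno _ (hmiss _ _ h01 (hno _))
      obtain ⟨j, hj⟩ := hA
      choose f hf using fun i => hex _ (hQ i)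
      obtain ⟨c, hc⟩ := hex _ hj
      have hfinj : Function.Injective (fun o : Option (Fin t) => match o with
          | none => c
          | some i => f i) := by
        rintro (_ | a) (_ | b) hab
        · rfl
        · exfalso
          simp only at hab
          exact hconf _ _ _ _ hc (hf b) (by simp [GT, adjT]) (by simpa [shift] using hab)
        · exfalso
          simp only at hab
          exact hconf _ _ _ _ (hf a) hc (by simp [GT, adjT]) (by simpa [shift] using hab)
        · by_contra hne
          simp only at hab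
          exact hconf _ _ _ _ (hf a) (hf b) (by
            simp only [GT, adjT]; intro h; exact hne (by rw [h])) (by simpa [shift] using hab)
      have := Fintype.card_le_of_injective _ hfinj
      simp at this
    · push Not at hQ
      obtain ⟨q, hq⟩ := hQ
      -- everything else is coloured
      have hall : ∀ v : Vt t, v ≠ Sum.inl q → v ∈ P := fun v hv => hmiss _ _ hv.symm hq
      choose f hf using fun (v : Vt t) (hv : v ≠ Sum.inl q) => hex v (hall v hv)
      have hz : (Sum.inr (Sum.inr ()) : Vt t) ≠ Sum.inl q := by simp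
      have ha : ∀ i : Fin t, (Sum.inr (Sum.inl i) : Vt t) ≠ Sum.inl q := by simp
      -- all `a_i` get the same colour
      have hsame : ∀ i j : Fin t, f _ (ha i) = f _ (ha j) := by
        intro i j
        by_contra hne
        have hfinj : Function.Injective (fun o : Option (Fin t) => match o with
            | none => f _ (ha i)
            | some b => if hb : b = q then f _ (ha j) else
              f (Sum.inl b) (fun h => hb (Sum.inl.inj h))) := by
          rintro (_ | a) (_ | b) hab
          · rfl
          · exfalso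
            simp only at hab
            by_cases hb : b = q
            · rw [dif_pos hb] at hab; exact hne hab
            · rw [dif_neg hb] at hab
              exact hconf _ _ _ _ (hf _ (ha i)) (hf (Sum.inl b) (fun h => hb (Sum.inl.inj h)))
                (by simp [GT, adjT]) (by simpa [shift] using hab)
          · exfalso
            simp only at hab
            by_cases hb : a = q
            · rw [dif_pos hb] at hab; exact hne hab.symm
            · rw [dif_neg hb] at hab
              exact hconf _ _ _ _ (hf (Sum.inl a) (fun h => hb (Sum.inl.inj h))) (hf _ (ha i))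
                (by simp [GT, adjT]) (by simpa [shift] using hab)
          · by_contra hne'
            simp only at hab
            have hab' : a ≠ b := fun h => hne' (by rw [h])
            by_cases h1 : a = q
            · by_cases h2 : b = q
              · exact hab' (h1.trans h2.symm)
              · rw [dif_pos h1, dif_neg h2] at hab
                exact hconf _ _ _ _ (hf _ (ha j)) (hf (Sum.inl b) (fun h => h2 (Sum.inl.inj h)))
                  (by simp [GT, adjT]) (by simpa [shift] using hab)
            · by_cases h2 : b = q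
              · rw [dif_neg h1, dif_pos h2] at hab
                exact hconf _ _ _ _ (hf (Sum.inl a) (fun h => h1 (Sum.inl.inj h))) (hf _ (ha j))
                  (by simp [GT, adjT]) (by simpa [shift] using hab)
              · rw [dif_neg h1, dif_neg h2] at hab
                exact hconf _ _ _ _ (hf (Sum.inl a) (fun h => h1 (Sum.inl.inj h)))
                  (hf (Sum.inl b) (fun h => h2 (Sum.inl.inj h)))
                  (by simpa [GT, adjT] using hab') (by simpa [shift] using hab)
        have := Fintype.card_le_of_injective _ hfinj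
        simp at this
      -- `z` is blocked
      let i0 : Fin t := ⟨0, by omega⟩
      let i : Fin t := f _ hz - f _ (ha i0)
      have hbad := hconf _ _ _ _ (hf _ (ha i)) (hf _ hz) (by simp [GT, adjT])
      apply hbad
      rw [hsame i i0]
      simp [shift, i]

lemma alphaDP_GT (t : ℕ) (ht : 2 ≤ t) : alphaDP t (GT t) ≤ 2 * t - 1 := by
  obtain ⟨C, hC, hle⟩ := GT_bad t ht
  exact le_trans (Nat.sInf_le ⟨C, hC, rfl⟩) hle

lemma GT_not_nice (t : ℕ) (ht : 2 ≤ t) : ¬ PartiallyDPNice (GT t) := by
  intro h
  have h1 := h t (by omega) (by rw [chiDP_GT t (by omega)]; omega)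
  rw [chiDP_GT t (by omega), card_Vt] at h1
  have h2 : (alphaDP t (GT t) : ℝ) ≤ 2 * t - 1 := by
    have := alphaDP_GT t ht
    have h3 : alphaDP t (GT t) + 1 ≤ 2 * t := by omega
    have h4 : ((alphaDP t (GT t) + 1 : ℕ) : ℝ) ≤ ((2 * t : ℕ) : ℝ) := by exact_mod_cast h3
    push_cast at h4
    linarith
  have h3 := le_trans h1 h2
  have hpos : (0 : ℝ) < ((t + 1 : ℕ) : ℝ) := by positivity
  rw [div_le_iff₀ hpos] at h3
  push_cast at h3
  nlinarith

/-- main theorem -/
theorem exists_not_nice (k : ℕ) (hk : 4 ≤ k) :
    ∃ (V : Type) (_ : Fintype V) (_ : Nonempty V) (G : SimpleGraph V),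
      chiDP G = k ∧ ¬ PartiallyDPNice G := by
  refine ⟨Vt (k - 1), inferInstance, ⟨Sum.inr (Sum.inr ())⟩, GT (k - 1), ?_, ?_⟩
  · rw [chiDP_GT (k - 1) (by omega)]; omega
  · exact GT_not_nice (k - 1) (by omega)

end Pool.Agent.Lib.MP_a5c736_co
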